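import Mathlib

/-!
# Differences of shifted integer polynomials
-/

open Polynomial

namespace Pool.Agent.Helper50.Rec

/-- the top coefficients of `f (X + a) - f (X + b)` -/
lemma taylor_diff (f : ℤ[X]) (n : ℕ) (hf : f.natDegree ≤ n + 1) (a b : ℤ) :
    (taylor a f - taylor b f).natDegree ≤ n ∧
      (taylor a f - taylor b f).coeff n = (n + 1) * f.coeff (n + 1) * (a - b) := by
  have hz : ∀ m, n + 1 < m → f.coeff m = 0 := fun m hm =>
    coeff_eq_zero_of_natDegree_lt (lt_of_le_of_lt hf hm)
  have hev : ∀ (m : ℕ) (r : ℤ), n + 1 ≤ m → (hasseDeriv m f).eval r = f.coeff m := by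
    intro m r hm
    have : hasseDeriv m f = Polynomial.C (f.coeff m) := by
      ext j
      rw [hasseDeriv_coeff, coeff_C]
      split_ifs with hj
      · subst hj; simp
      · rw [hz (j + m) (by omega)]; simp
    rw [this, eval_C]
  have hev1 : ∀ r : ℤ, (hasseDeriv n f).eval r = f.coeff n + (n + 1) * f.coeff (n + 1) * r := by
    intro r
    have : hasseDeriv n f = Polynomial.C (f.coeff n) + Polynomial.C (((n : ℤ) + 1) * f.coeff (n + 1)) * X := by
      ext j
      rw [hasseDeriv_coeff]
      rcases j with _ | j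
      · simp
      · rcases j with _ | j
        · rw [coeff_add, coeff_C_succ, coeff_C_mul, coeff_X_one]
          rw [show 0 + 1 + n = n + 1 by ring, Nat.choose_succ_self_right]
          push_cast; ring
        · rw [hz (j + 1 + 1 + n) (by omega), coeff_add, coeff_C_succ, coeff_C_mul, coeff_X]
          simp
    rw [this]; simp
  constructor
  · rw [natDegree_le_iff_coeff_eq_zero]
    intro m hm
    rw [coeff_sub, taylor_coeff, taylor_coeff, hev m a (by omega), hev m b (by omega), sub_self]
  · rw [coeff_sub, taylor_coeff, taylor_coeff, hev1, hev1]; ring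

/-- leading term of a difference of shifts -/
lemma taylor_diff_lead (f : ℤ[X]) (n : ℕ) (hf : f.natDegree = n + 1) (a b : ℤ) (hab : a ≠ b) :
    (taylor a f - taylor b f).natDegree = n ∧
      (taylor a f - taylor b f).leadingCoeff = (n + 1) * f.leadingCoeff * (a - b) := by
  obtain ⟨h1, h2⟩ := taylor_diff f n hf.le a b
  have h3 : f.coeff (n + 1) = f.leadingCoeff := by rw [leadingCoeff, hf]
  have h4 : f.leadingCoeff ≠ 0 := by
    rw [Ne, leadingCoeff_eq_zero]; rintro rfl; simp at hf
  have h5 : (taylor a f - taylor b f).coeff n ≠ 0 := by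
    rw [h2, h3]
    exact mul_ne_zero (mul_ne_zero (by positivity) h4) (sub_ne_zero.mpr hab)
  have h6 : (taylor a f - taylor b f).natDegree = n :=
    le_antisymm h1 (le_natDegree_of_ne_zero h5)
  exact ⟨h6, by rw [leadingCoeff, h6, h2, h3]⟩

/-- a difference of shifts has smaller degree -/
lemma taylor_diff_lt (f : ℤ[X]) (n : ℕ) (hn : 1 ≤ n) (hf : f.natDegree ≤ n) (a b : ℤ) :
    (taylor a f - taylor b f).natDegree < n := by
  obtain ⟨m, rfl⟩ : ∃ m, n = m + 1 := ⟨n - 1, by omega⟩
  exact Nat.lt_succ_of_le (taylor_diff f m hf a b).1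

end Pool.Agent.Helper50.Rec
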