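import Mathlib
import Pool.Agent.Helper50.Rec.Basic
import Pool.Agent.Helper26.Rec.PolyDiff

/-!
# Elimination of the wild polynomial (REC-8), with the PET theorem as a hypothesis
-/

open MeasureTheory Polynomial Finset Filter Topology
open scoped BigOperators ComplexConjugate

namespace Pool.Agent.Helper50.Rec

variable {X : Type} [MeasurableSpace X]

/-! ### leading terms -/

/-- degree at most `d`, with coefficient `c` at `d` -/
def TT (d : ℕ) (c : ℤ) (u : ℕ → ℤ[X]) : Prop := ∀ n, (u n).natDegree ≤ d ∧ (u n).coeff d = c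

lemma ULT.tt {u : ℕ → ℤ[X]} (h : ULT u) : TT (u 0).natDegree (u 0).leadingCoeff u := by
  intro n
  obtain ⟨h1, h2⟩ := h.2 n
  exact ⟨h1.le, by rw [← h2, leadingCoeff, h1]⟩

lemma TT.ult {u : ℕ → ℤ[X]} {d : ℕ} {c : ℤ} (h : TT d c u) (hd : 1 ≤ d) (hc : c ≠ 0) : ULT u := by
  have h1 : ∀ n, (u n).natDegree = d := fun n =>
    le_antisymm (h n).1 (le_natDegree_of_ne_zero (by rw [(h n).2]; exact hc))
  refine ⟨by rw [h1 0]; exact hd, fun n => ⟨by rw [h1, h1], ?_⟩⟩
  rw [leadingCoeff, leadingCoeff, h1, h1, (h n).2, (h 0).2]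

lemma TT.add {u v : ℕ → ℤ[X]} {d : ℕ} {c c' : ℤ} (hu : TT d c u) (hv : TT d c' v) :
    TT d (c + c') (fun n => u n + v n) := fun n =>
  ⟨(natDegree_add_le _ _).trans (max_le (hu n).1 (hv n).1), by
    simp only [coeff_add, (hu n).2, (hv n).2]⟩

lemma TT.neg {u : ℕ → ℤ[X]} {d : ℕ} {c : ℤ} (hu : TT d c u) : TT d (-c) (fun n => -u n) := fun n =>
  ⟨by rw [natDegree_neg]; exact (hu n).1, by rw [coeff_neg, (hu n).2]⟩

lemma TT.up {u : ℕ → ℤ[X]} {d d' : ℕ} {c : ℤ} (hu : TT d c u) (h : d < d') : TT d' 0 u := fun n =>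
  ⟨(hu n).1.trans h.le, coeff_eq_zero_of_natDegree_lt (lt_of_le_of_lt (hu n).1 h)⟩

lemma TT.taylor {u : ℕ → ℤ[X]} {d : ℕ} {c : ℤ} (hu : TT d c u) (a : ℤ) :
    TT d c (fun n => taylor a (u n)) := by
  intro n
  refine ⟨by rw [natDegree_taylor]; exact (hu n).1, ?_⟩
  rw [taylor_coeff, ← (hu n).2]
  have : hasseDeriv d (u n) = Polynomial.C ((u n).coeff d) := by
    ext j
    rw [hasseDeriv_coeff, coeff_C]
    split_ifs with hj
    · subst hj; simp
    · rw [coeff_eq_zero_of_natDegree_lt (by have := (hu n).1; omega)]; simp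
  rw [this, eval_C]

lemma TT.diff {u : ℕ → ℤ[X]} {d : ℕ} {c : ℤ} (hu : TT (d + 1) c u) (a b : ℤ) :
    TT d ((d + 1) * c * (a - b)) (fun n => Polynomial.taylor a (u n) - Polynomial.taylor b (u n)) := by
  intro n
  obtain ⟨h1, h2⟩ := taylor_diff (u n) d (hu n).1 a b
  exact ⟨h1, by rw [h2, (hu n).2]⟩

lemma ULT.congr {u v : ℕ → ℤ[X]} (h : ULT u) (e : ∀ n, v n = u n) : ULT v := by
  have : v = u := funext e
  rw [this]; exact h

/-! ### the new family -/

/-- the new family of polynomials -/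
noncomputable def newP {ι : Type} (p : ι → ℕ → ℤ[X]) (W : ℕ → ℤ[X]) (a b : ℤ) (i : ι × Bool) (n : ℕ) : ℤ[X] :=
  taylor (if i.2 then a else b) (p i.1 n) - taylor b (W n)

/-- the shifts `(a, b)` for which the new family is nice -/
def Good {ι : Type} (p : ι → ℕ → ℤ[X]) (D : ℕ) (a b : ℤ) : Prop :=
  ∀ i j, (p i 0 - p j 0).coeff (D - 1) + D * (p i 0).leadingCoeff * (a - b) ≠ 0

lemma newP_tt {ι : Type} (p : ι → ℕ → ℤ[X]) (hp : Nice p) (D : ℕ)
    (hdeg : ∀ i, (p i 0).natDegree = D) (W : ℕ → ℤ[X]) (w : ℕ) (hw : w < D)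
    (hW : ∀ n, (W n).natDegree ≤ w) (a b : ℤ) (i : ι × Bool) :
    TT D (p i.1 0).leadingCoeff (newP p W a b i) := by
  have h1 := ((hp.self i.1).tt).taylor (if i.2 then a else b)
  rw [hdeg] at h1
  have h2 : TT D 0 (fun n => -taylor b (W n)) := by
    intro n
    have h3 : (taylor b (W n)).natDegree < D := by
      rw [natDegree_taylor]; exact lt_of_le_of_lt (hW n) hw
    exact ⟨by rw [natDegree_neg]; exact h3.le, by
      rw [coeff_neg, coeff_eq_zero_of_natDegree_lt h3, neg_zero]⟩
  have h3 := h1.add h2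
  rw [add_zero] at h3
  intro n
  have := h3 n
  simpa [newP, sub_eq_add_neg] using this

/-- the mixed differences -/
lemma mixed_ult {ι : Type} (p : ι → ℕ → ℤ[X]) (hp : Nice p) (D : ℕ) (hD : 2 ≤ D)
    (hdeg : ∀ i, (p i 0).natDegree = D) (a b : ℤ) (hg : Good p D a b) (i j : ι) :
    ULT (fun n => taylor a (p i n) - taylor b (p j n)) := by
  classical
  obtain ⟨d, rfl⟩ : ∃ d, D = d + 1 := ⟨D - 1, by omega⟩
  have h1 := (hp.self i).tt
  rw [hdeg] at h1
  have h2 := h1.diff a b
  have hgij := hg i j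
  simp only [Nat.add_sub_cancel] at hgij
  push_cast at hgij
  by_cases hij : i = j
  · subst hij
    refine h2.ult (by omega) ?_
    simpa using hgij
  · have h3 := (hp.diff i j hij).tt.taylor b
    have hle : (p i 0 - p j 0).natDegree ≤ d + 1 :=
      (natDegree_sub_le _ _).trans (max_le (hdeg i).le (hdeg j).le)
    have hne : (p i 0 - p j 0).leadingCoeff ≠ 0 := by
      rw [Ne, leadingCoeff_eq_zero]
      intro h
      have := (hp.diff i j hij).1
      simp only at this
      rw [h] at this; simp at this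
    have hlead : (p i 0 - p j 0).coeff (p i 0 - p j 0).natDegree = (p i 0 - p j 0).leadingCoeff := rfl
    have key : ∀ {d' : ℕ} {c : ℤ}, TT d' c (fun n => taylor b (p i n - p j n) +
        (taylor a (p i n) - taylor b (p i n))) → 1 ≤ d' → c ≠ 0 →
        ULT (fun n => taylor a (p i n) - taylor b (p j n)) := by
      intro d' c h hd hc
      refine (h.ult hd hc).congr fun n => ?_
      rw [map_sub]; ring
    rcases Nat.lt_trichotomy (p i 0 - p j 0).natDegree d with hlt | heq | hgt
    · refine key ((h3.up hlt).add h2) (by omega) ?_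
      have : (p i 0 - p j 0).coeff d = 0 := coeff_eq_zero_of_natDegree_lt hlt
      rw [this] at hgij
      exact hgij
    · rw [heq] at h3
      refine key (h3.add h2) (by omega) ?_
      rw [leadingCoeff, heq]
      exact hgij
    · have heq : (p i 0 - p j 0).natDegree = d + 1 := by omega
      rw [heq] at h3
      refine key (h3.add (h2.up (Nat.lt_succ_self d))) (by omega) ?_
      rw [add_zero]; exact hne

lemma newP_nice {ι : Type} (p : ι → ℕ → ℤ[X]) (hp : Nice p) (D : ℕ) (hD : 2 ≤ D)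
    (hdeg : ∀ i, (p i 0).natDegree = D) (W : ℕ → ℤ[X]) (w : ℕ) (hw : w < D)
    (hW : ∀ n, (W n).natDegree ≤ w) (a b : ℤ) (hg : Good p D a b) : Nice (newP p W a b) := by
  have hlc : ∀ i, (p i 0).leadingCoeff ≠ 0 := by
    intro i
    rw [Ne, leadingCoeff_eq_zero]
    intro h
    have := hdeg i
    rw [h] at this; simp at this; omega
  refine ⟨fun i => (newP_tt p hp D hdeg W w hw hW a b i).ult (by omega) (hlc _), ?_⟩
  rintro ⟨i, s⟩ ⟨j, t⟩ hne
  cases s <;> cases t
  · -- false false
    have hij : i ≠ j := by rintro rfl; exact hne rfl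
    have h1 := (hp.diff i j hij).tt.taylor b
    refine (h1.ult (hp.diff i j hij).1 ?_).congr fun n => ?_
    · simp only [Ne, leadingCoeff_eq_zero]
      intro h
      have := (hp.diff i j hij).1
      simp only at this
      rw [h] at this; simp at this
    · simp [newP]
  · -- false true
    have h1 := mixed_ult p hp D hD hdeg a b hg j i
    have h2 := h1.tt.neg
    refine (h2.ult h1.1 ?_).congr fun n => ?_
    · rw [neg_ne_zero, Ne, leadingCoeff_eq_zero]
      intro h
      have := h1.1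
      simp only at this h
      rw [h] at this; simp at this
    · simp [newP]
  · -- true false
    refine (mixed_ult p hp D hD hdeg a b hg i j).congr fun n => ?_
    simp [newP]
  · have hij : i ≠ j := by rintro rfl; exact hne rfl
    have h1 := (hp.diff i j hij).tt.taylor a
    refine (h1.ult (hp.diff i j hij).1 ?_).congr fun n => ?_
    · simp only [Ne, leadingCoeff_eq_zero]
      intro h
      have := (hp.diff i j hij).1
      simp only at this
      rw [h] at this; simp at this
    · simp [newP]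

/-- few pairs are bad -/
lemma card_bad {ι : Type} [Fintype ι] (p : ι → ℕ → ℤ[X]) (D : ℕ) (hD : 1 ≤ D)
    (hdeg : ∀ i, (p i 0).natDegree = D) (K : ℕ) [DecidablePred fun q : ℕ × ℕ => Good p D q.1 q.2] :
    (((range K ×ˢ range K).filter fun q : ℕ × ℕ => ¬ Good p D q.1 q.2).card : ℝ) ≤
      (Fintype.card ι : ℝ) ^ 2 * K := by
  classical
  have hlc : ∀ i, (p i 0).leadingCoeff ≠ 0 := by
    intro i
    rw [Ne, leadingCoeff_eq_zero]
    intro h
    have := hdeg i
    rw [h] at this; simp at this; omega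
  have h1 : ((range K ×ˢ range K).filter fun q : ℕ × ℕ => ¬ Good p D q.1 q.2) ⊆
      (Finset.univ : Finset (ι × ι)).biUnion fun ij => (range K ×ˢ range K).filter
        fun q : ℕ × ℕ => (p ij.1 0 - p ij.2 0).coeff (D - 1) +
          D * (p ij.1 0).leadingCoeff * ((q.1 : ℤ) - q.2) = 0 := by
    intro q hq
    rw [mem_filter] at hq
    obtain ⟨hq1, hq2⟩ := hq
    unfold Good at hq2
    push Not at hq2
    obtain ⟨i, j, hij⟩ := hq2
    rw [mem_biUnion]
    exact ⟨(i, j), mem_univ _, mem_filter.mpr ⟨hq1, hij⟩⟩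
  have h2 : ∀ ij : ι × ι, ((range K ×ˢ range K).filter
        fun q : ℕ × ℕ => (p ij.1 0 - p ij.2 0).coeff (D - 1) +
          D * (p ij.1 0).leadingCoeff * ((q.1 : ℤ) - q.2) = 0).card ≤ K := by
    intro ij
    have h3 : ((range K ×ˢ range K).filter
        fun q : ℕ × ℕ => (p ij.1 0 - p ij.2 0).coeff (D - 1) +
          D * (p ij.1 0).leadingCoeff * ((q.1 : ℤ) - q.2) = 0).card ≤ (range K).card := by
      refine Finset.card_le_card_of_injOn (fun q => q.1) ?_ ?_
      · intro q hq
        have := (mem_filter.mp hq).1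
        exact (mem_product.mp this).1
      · intro q hq q' hq' heq
        have e1 := (mem_filter.mp hq).2
        have e2 := (mem_filter.mp hq').2
        simp only at heq
        rw [heq] at e1
        have h4 : (D : ℤ) * (p ij.1 0).leadingCoeff ≠ 0 :=
          mul_ne_zero (by exact_mod_cast (by omega : D ≠ 0)) (hlc _)
        have h5 : (D : ℤ) * (p ij.1 0).leadingCoeff * ((q'.1 : ℤ) - q.2) =
            (D : ℤ) * (p ij.1 0).leadingCoeff * ((q'.1 : ℤ) - q'.2) := by linarith
        have h6 := mul_left_cancel₀ h4 h5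
        have h7 : (q.2 : ℤ) = q'.2 := by linarith
        exact Prod.ext heq (by exact_mod_cast h7)
    simpa using h3
  have h3 := (Finset.card_le_card h1).trans Finset.card_biUnion_le
  have h4 : ∑ ij : ι × ι, ((range K ×ˢ range K).filter
        fun q : ℕ × ℕ => (p ij.1 0 - p ij.2 0).coeff (D - 1) +
          D * (p ij.1 0).leadingCoeff * ((q.1 : ℤ) - q.2) = 0).card ≤ ∑ _ij : ι × ι, K :=
    Finset.sum_le_sum fun ij _ => h2 ij
  have h5 : ∑ _ij : ι × ι, K = Fintype.card ι ^ 2 * K := by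
    simp [Fintype.card_prod, _root_.sq]
  have h6 := h3.trans (h4.trans_eq h5)
  exact_mod_cast h6

/-! ### the correlation identity -/

/-- the new family of functions -/
noncomputable def newF {ι : Type} (F : ι → X → ℂ) (i : ι × Bool) : X → ℂ :=
  if i.2 then F i.1 else fun x => conj (F i.1 x)

lemma newF_B1 {ι : Type} {F : ι → X → ℂ} (hF : ∀ i, B1 (F i)) (i : ι × Bool) : B1 (newF F i) := by
  unfold newF
  split_ifs
  · exact hF _
  · exact (hF _).conj

lemma corr_wild (S : Sys X) {ι : Type} [Fintype ι] (p : ι → ℤ[X]) (W : ℤ[X]) (G : X → ℂ)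
    (F : ι → X → ℂ) (h a b : ℕ) :
    S.int (fun x => (S.sh (W.eval ((h + a : ℕ) : ℤ)) G x *
          ∏ i, S.sh ((p i).eval ((h + a : ℕ) : ℤ)) (F i) x) *
        conj (S.sh (W.eval ((h + b : ℕ) : ℤ)) G x *
          ∏ i, S.sh ((p i).eval ((h + b : ℕ) : ℤ)) (F i) x)) =
      S.int (fun x => (S.sh ((taylor (a : ℤ) W - taylor (b : ℤ) W).eval (h : ℤ)) G x *
          ∏ i : ι × Bool, S.sh ((newP (fun i _ => p i) (fun _ => W) a b i 0).eval (h : ℤ))
            (newF F i) x) * conj (G x)) := by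
  rw [← S.int_sh (-(W.eval ((h + b : ℕ) : ℤ)))]
  congr 1
  funext x
  have e1 : ∀ (R : ℤ[X]) (c : ℕ), (taylor (c : ℤ) R).eval (h : ℤ) = R.eval ((h + c : ℕ) : ℤ) := by
    intro R c; rw [taylor_eval]; push_cast; rfl
  rw [Fintype.prod_prod_type]
  simp only [Fintype.prod_bool, newP, newF, Sys.sh, if_true, map_mul, map_prod, eval_sub, e1,
    ← S.τ_add, Bool.false_eq_true, if_false, add_neg_cancel, S.τ_zero, ← sub_eq_add_neg]
  rw [Finset.prod_mul_distrib]
  ring

/-! ### the induction -/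

/-- averages with an additional wild polynomial of degree at most `w` -/
def VW (S : Sys X) (w : ℕ) {ι : Type} [Fintype ι] (p : ι → ℕ → ℤ[X]) (i0 : ι) : Prop :=
  ∀ f, B1 f → S.Null f → ∀ F : ι → ℕ → X → ℂ, (∀ i n, B1 (F i n)) → (∀ n, F i0 n = f) →
    ∀ W : ℕ → ℤ[X], (∀ n, (W n).natDegree ≤ w) → ∀ G : ℕ → X → ℂ, (∀ n, B1 (G n)) →
    ∀ H : ℕ → ℕ, Tendsto H atTop atTop →
      Tendsto (fun n => S.sq (avg (H n) (fun h x => S.sh ((W n).eval (h : ℤ)) (G n) x *
        ∏ i, S.sh ((p i n).eval (h : ℤ)) (F i n) x))) atTop (𝓝 0)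

lemma tendsto_zero_of_le {u : ℕ → ℝ} (h0 : ∀ n, 0 ≤ u n)
    (h : ∀ ε : ℝ, 0 < ε → ∀ᶠ n in atTop, u n ≤ ε) : Tendsto u atTop (𝓝 0) := by
  rw [Metric.tendsto_atTop']
  intro ε hε
  obtain ⟨N, hN⟩ := eventually_atTop.mp (h (ε / 2) (by positivity))
  refine ⟨N, fun n hn => ?_⟩
  rw [Real.dist_eq, sub_zero, abs_of_nonneg (h0 n)]
  linarith [hN n hn.le]

theorem vw (S : Sys X)
    (hpet : ∀ {ι : Type} [Fintype ι] (p : ι → ℕ → ℤ[X]), Nice p → ∀ i0 : ι,
      (∀ i, (p i 0).natDegree ≤ (p i0 0).natDegree) → Vanish S p i0)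
    (D w : ℕ) (hw : w < D) : ∀ {ι : Type} [Fintype ι] (p : ι → ℕ → ℤ[X]), Nice p →
      (∀ i, (p i 0).natDegree = D) → ∀ i0 : ι, VW S w p i0 := by
  induction w with
  | zero =>
    intro ι _ p hp hdeg i0 f hf hnull F hF hFi W hW G hG H hH
    have h1 := hpet p hp i0 (fun i => by rw [hdeg, hdeg]) f hf hnull F hF hFi H hH
    refine squeeze_zero (fun n => S.sq_nonneg _) (fun n => ?_) h1
    have e1 : ∀ h : ℕ, (W n).eval (h : ℤ) = (W n).coeff 0 := by
      intro h
      have : W n = Polynomial.C ((W n).coeff 0) := eq_C_of_natDegree_le_zero (hW n)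
      rw [this]; simp
    have e2 : avg (H n) (fun h x => S.sh ((W n).eval (h : ℤ)) (G n) x *
        ∏ i, S.sh ((p i n).eval (h : ℤ)) (F i n) x) =
        fun x => avg (H n) (fun h x => ∏ i, S.sh ((p i n).eval (h : ℤ)) (F i n) x) x *
          S.sh ((W n).coeff 0) (G n) x := by
      funext x
      unfold avg
      simp_rw [e1]
      rw [← Finset.mul_sum]; ring
    rw [e2]
    exact S.sq_mul_le (B1.avg (fun h => B1.prod _ fun i => (hF i n).sh S _) _) ((hG n).sh S _)
  | succ w ih =>
    intro ι _ p hp hdeg i0 f hf hnull F hF hFi W hW G hG H hH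
    classical
    have hD2 : 2 ≤ D := by omega
    refine tendsto_zero_of_le (fun n => S.sq_nonneg _) fun ε hε => ?_
    set m : ℝ := (Fintype.card ι : ℝ) ^ 2 with hm
    have hm0 : 0 ≤ m := by positivity
    obtain ⟨K, hK⟩ := exists_nat_gt (4 * (m + 1) / ε)
    have hK' : (0 : ℝ) < K := lt_trans (by positivity) hK
    have hK1 : 1 ≤ K := by
      have : 0 < K := by exact_mod_cast hK'
      omega
    set v : ℕ → ℕ → X → ℂ := fun n h x => S.sh ((W n).eval (h : ℤ)) (G n) x *
        ∏ i, S.sh ((p i n).eval (h : ℤ)) (F i n) x with hv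
    have hvB : ∀ n h, B1 (v n h) := fun n h =>
      ((hG n).sh S _).mul (B1.prod _ fun i => (hF i n).sh S _)
    -- good pairs
    have hgood : ∀ q ∈ range K ×ˢ range K, Good p D (q.1 : ℕ) (q.2 : ℕ) → ∀ᶠ n in atTop,
        ‖(H n : ℂ)⁻¹ * ∑ h ∈ range (H n),
          S.int (fun x => v n (h + q.1) x * conj (v n (h + q.2) x))‖ ≤ ε / 4 := by
      rintro ⟨a, b⟩ _ hg
      simp only at hg ⊢
      have hnice := newP_nice p hp D hD2 hdeg W (w + 1) hw hW a b hg
      have hdeg' : ∀ i, (newP p W a b i 0).natDegree = D := by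
        intro i
        have h1 := newP_tt p hp D hdeg W (w + 1) hw hW a b i 0
        refine le_antisymm h1.1 (le_natDegree_of_ne_zero ?_)
        rw [h1.2, Ne, leadingCoeff_eq_zero]
        intro h
        have := hdeg i.1
        rw [h] at this; simp at this; omega
      have h1 := ih (by omega) (newP p W a b) hnice hdeg' (i0, true) f hf hnull
        (fun i n => newF (fun j => F j n) i) (fun i n => newF_B1 (fun j => hF j n) i)
        (fun n => by simp [newF, hFi n])
        (fun n => taylor (a : ℤ) (W n) - taylor (b : ℤ) (W n))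
        (fun n => (taylor_diff (W n) w (hW n) a b).1) G hG H hH
      have h2 : ∀ᶠ n in atTop, S.sq (avg (H n) (fun h x =>
          S.sh ((taylor (a : ℤ) (W n) - taylor (b : ℤ) (W n)).eval (h : ℤ)) (G n) x *
          ∏ i, S.sh ((newP p W a b i n).eval (h : ℤ)) (newF (fun j => F j n) i) x)) < (ε / 4) ^ 2 :=
        h1.eventually (gt_mem_nhds (by positivity))
      filter_upwards [h2] with n hn
      set v' : ℕ → X → ℂ := fun h x =>
          S.sh ((taylor (a : ℤ) (W n) - taylor (b : ℤ) (W n)).eval (h : ℤ)) (G n) x *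
          ∏ i, S.sh ((newP p W a b i n).eval (h : ℤ)) (newF (fun j => F j n) i) x with hv'
      have hvB' : ∀ h, B1 (v' h) := fun h => ((hG n).sh S _).mul
        (B1.prod _ fun i => (newF_B1 (fun j => hF j n) i).sh S _)
      have e1 : ∀ h, S.int (fun x => v n (h + a) x * conj (v n (h + b) x)) =
          S.int (fun x => v' h x * conj (G n x)) := by
        intro h
        exact corr_wild S (fun i => p i n) (W n) (G n) (fun i => F i n) h a b
      simp_rw [e1]
      rw [← S.int_avg_mul hvB' (H n) (hG n).conj]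
      have h3 := S.cs_one (B1.avg hvB' (H n)) (hG n).conj
      exact (abs_le_of_sq_le_sq' (h3.trans hn.le) (by positivity)).2
    have hgood' : ∀ᶠ n in atTop, ∀ q ∈ range K ×ˢ range K, Good p D (q.1 : ℕ) (q.2 : ℕ) →
        ‖(H n : ℂ)⁻¹ * ∑ h ∈ range (H n),
          S.int (fun x => v n (h + q.1) x * conj (v n (h + q.2) x))‖ ≤ ε / 4 := by
      rw [Filter.eventually_all_finset]
      intro q hq
      by_cases hg : Good p D (q.1 : ℕ) (q.2 : ℕ)
      · filter_upwards [hgood q hq hg] with n hn _ using hn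
      · filter_upwards with n h; exact absurd h hg
    obtain ⟨H1, hH1⟩ := exists_nat_gt (8 * K / ε)
    filter_upwards [hgood', hH.eventually_ge_atTop (K + H1)] with n hn hHn
    have hH' : (0 : ℝ) < H n := by
      have : 0 < H n := by omega
      exact_mod_cast this
    have h1 := vdc S (v n) (hvB n) (H n) K hK1 (by omega)
    have hsum : ∑ a ∈ range K, ∑ b ∈ range K,
        ‖(H n : ℂ)⁻¹ * ∑ h ∈ range (H n), S.int (fun x => v n (h + a) x * conj (v n (h + b) x))‖
          ≤ m * K + K ^ 2 * (ε / 4) := by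
      rw [← Finset.sum_product']
      calc _ ≤ ∑ q ∈ range K ×ˢ range K,
            ((if ¬ Good p D (q.1 : ℕ) (q.2 : ℕ) then (1 : ℝ) else 0) + ε / 4) := by
            refine Finset.sum_le_sum fun q hq => ?_
            by_cases hg : Good p D (q.1 : ℕ) (q.2 : ℕ)
            · rw [if_neg (not_not.mpr hg), zero_add]
              exact hn q hq hg
            · rw [if_pos hg]
              have := norm_avg_le (z := fun h =>
                S.int (fun x => v n (h + q.1) x * conj (v n (h + q.2) x))) (H n)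
                (fun h => S.norm_int_le ((hvB n _).mul (hvB n _).conj))
              have : 0 < ε / 4 := by positivity
              linarith
        _ = (((range K ×ˢ range K).filter fun q : ℕ × ℕ => ¬ Good p D (q.1 : ℕ) (q.2 : ℕ)).card : ℝ)
              + K ^ 2 * (ε / 4) := by
            rw [Finset.sum_add_distrib, ← Finset.sum_filter, Finset.sum_const, Finset.sum_const,
              card_product, card_range, nsmul_eq_mul, nsmul_eq_mul]
            push_cast; ring
        _ ≤ m * K + K ^ 2 * (ε / 4) := by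
            have := card_bad p D (by omega) hdeg K
            linarith
    have hfin : ((K : ℝ) ^ 2)⁻¹ * (m * K + K ^ 2 * (ε / 4)) ≤ ε / 2 := by
      have h5 : ((K : ℝ) ^ 2)⁻¹ * (m * K + K ^ 2 * (ε / 4)) = m / K + ε / 4 := by
        field_simp
      rw [h5]
      have h6 : m / (K : ℝ) ≤ ε / 4 := by
        rw [div_le_iff₀ hK']
        rw [div_lt_iff₀ hε] at hK
        linarith
      linarith
    have hlast : 2 * (K : ℝ) / H n ≤ ε / 2 := by
      rw [div_le_iff₀ hH']
      have h7 : 8 * (K : ℝ) / ε < H n := hH1.trans_le (by exact_mod_cast (by omega : H1 ≤ H n))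
      rw [div_lt_iff₀ hε] at h7
      nlinarith
    calc S.sq (avg (H n) (v n)) ≤ _ := h1
      _ ≤ ((K : ℝ) ^ 2)⁻¹ * (m * K + K ^ 2 * (ε / 4)) + 2 * K / H n := by
          gcongr
      _ ≤ ε := by linarith

/-- REC-8 from the PET theorem -/
theorem seminorm_control_of_pet (S : Sys X)
    (hpet : ∀ {ι : Type} [Fintype ι] (p : ι → ℕ → ℤ[X]), Nice p → ∀ i0 : ι,
      (∀ i, (p i 0).natDegree ≤ (p i0 0).natDegree) → Vanish S p i0)
    (D D' : ℕ) (hD : D < D') (C : ℤ) (_hC : C ≠ 0)
    (f : X → ℂ) (hf : B1 f) (hnull : S.Null f) (ε : ℝ) (hε : 0 < ε) :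
    ∃ H₀ : ℕ, ∀ H ≥ H₀, ∀ P Q : ℤ[X], P.natDegree ≤ D → Q.natDegree = D' →
      Q.leadingCoeff = C → ∀ g : X → ℂ, B1 g →
        S.sq (avg H (fun h x => S.sh (P.eval (h : ℤ)) g x * S.sh (Q.eval (h : ℤ)) f x)) ≤ ε := by
  by_contra hcon
  push Not at hcon
  choose H hH P Q hP hQ hlc g hg hbad using hcon
  have hnice : Nice (fun (_ : Unit) n => Q n) := by
    refine ⟨fun _ => ⟨by simp only [hQ]; omega, fun j => ⟨by simp only [hQ], by simp only [hlc]⟩⟩, ?_⟩
    intro i j hij
    exact absurd (Subsingleton.elim i j) hij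
  have h1 := vw S hpet D' D hD (fun (_ : Unit) n => Q n) hnice (fun _ => hQ 0) () f hf hnull
    (fun _ _ => f) (fun _ _ => hf) (fun _ => rfl) P hP g hg H
    (tendsto_atTop_mono hH tendsto_id)
  have h2 : ∀ᶠ n in atTop, S.sq (avg (H n) (fun h x => S.sh ((P n).eval (h : ℤ)) (g n) x *
        ∏ _i : Unit, S.sh ((Q n).eval (h : ℤ)) f x)) < ε :=
    h1.eventually (gt_mem_nhds hε)
  obtain ⟨n, hn⟩ := h2.exists
  have h3 := hbad n
  simp only [Finset.univ_unique, Finset.prod_singleton] at hn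
  linarith

end Pool.Agent.Helper50.Rec
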