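import Mathlib
import Pool.Agent.Helper26.Rec.Wild
import Pool.Agent.Helper87.Rec.PetFinal

/-!
# Elimination of the wild polynomial (REC-8)
-/

open MeasureTheory Polynomial Finset Filter Topology
open scoped BigOperators ComplexConjugate

namespace Pool.Agent.Helper50.Rec

variable {X : Type} [MeasurableSpace X]

/-- REC-8 -/
theorem seminorm_control (S : Sys X) (D D' : ℕ) (hD : D < D') (C : ℤ) (hC : C ≠ 0)
    (f : X → ℂ) (hf : B1 f) (hnull : S.Null f) (ε : ℝ) (hε : 0 < ε) :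
    ∃ H₀ : ℕ, ∀ H ≥ H₀, ∀ P Q : ℤ[X], P.natDegree ≤ D → Q.natDegree = D' →
      Q.leadingCoeff = C → ∀ g : X → ℂ, B1 g →
        S.sq (avg H (fun h x => S.sh (P.eval (h : ℤ)) g x * S.sh (Q.eval (h : ℤ)) f x)) ≤ ε :=
  seminorm_control_of_pet S (fun p hp i0 hmax => pet S p hp i0 hmax) D D' hD C hC f hf hnull ε hε

end Pool.Agent.Helper50.Rec
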