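import Mathlib
import Pool.Agent.Helper50.Rec.Basic
import Pool.Agent.Helper26.Rec.PolyDiff

/-!
# Uniform weighted Weyl lemma (REC-4)
-/

open MeasureTheory Polynomial Finset Filter Topology
open scoped BigOperators ComplexConjugate

namespace Pool.Agent.Helper50.Rec

variable {X : Type} [MeasurableSpace X]

lemma exists_int_of_ec_eq_one {t : ℝ} (h : ec t = 1) : ∃ z : ℤ, t = z := by
  unfold ec at h
  rw [Complex.exp_eq_one_iff] at h
  obtain ⟨n, hn⟩ := h
  refine ⟨n, ?_⟩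
  have h2 : (2 * (Real.pi : ℂ) * Complex.I) ≠ 0 := Complex.two_pi_I_ne_zero
  have h3 : (t : ℂ) = (n : ℂ) := by
    apply mul_right_cancel₀ h2
    linear_combination hn
  exact_mod_cast h3

lemma ec_nat_mul (t : ℝ) (h : ℕ) : ec (t * h) = ec t ^ h := by
  induction h with
  | zero => simp [ec_zero]
  | succ h ih => rw [pow_succ, ← ih, ← ec_add]; congr 1; push_cast; ring

lemma le_sup_pair (g : ℕ → ℕ → ℕ) {K a b : ℕ} (ha : a ∈ range K) (hb : b ∈ range K) :
    g a b ≤ (range K ×ˢ range K).sup fun p => g p.1 p.2 :=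
  Finset.le_sup (s := range K ×ˢ range K) (f := fun p : ℕ × ℕ => g p.1 p.2) (b := (a, b))
    (mem_product.mpr ⟨ha, hb⟩)

/-- geometric sums -/
lemma norm_geom_ec (t : ℝ) (ht : ec t ≠ 1) (H : ℕ) :
    ‖∑ h ∈ range H, ec (t * h)‖ ≤ 2 / ‖ec t - 1‖ := by
  have h0 : 0 < ‖ec t - 1‖ := norm_pos_iff.mpr (sub_ne_zero.mpr ht)
  rw [le_div_iff₀ h0, ← norm_mul]
  simp_rw [ec_nat_mul]
  rw [geom_sum_mul]
  calc ‖ec t ^ H - 1‖ ≤ ‖ec t ^ H‖ + ‖(1 : ℂ)‖ := norm_sub_le _ _
    _ = 2 := by rw [norm_pow, norm_ec]; norm_num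

lemma Sys.sq_cmul (S : Sys X) (c : ℂ) (f : X → ℂ) :
    S.sq (fun x => c * f x) = ‖c‖ ^ 2 * S.sq f := by
  unfold Sys.sq
  rw [← integral_const_mul]
  congr 1; funext x
  rw [norm_mul, mul_pow]

/-- the correlations in the van der Corput inequality for `ec (β Q) T^P F` -/
lemma corr_eq (S : Sys X) (β : ℝ) (P Q : ℤ[X]) (F : X → ℂ) (h a b : ℕ) :
    S.int (fun x => (ec (β * (Q.eval ((h + a : ℕ) : ℤ) : ℤ)) *
        S.sh (P.eval ((h + a : ℕ) : ℤ)) F x) *
        conj (ec (β * (Q.eval ((h + b : ℕ) : ℤ) : ℤ)) *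
        S.sh (P.eval ((h + b : ℕ) : ℤ)) F x)) =
      S.int (fun x => (ec (β * ((taylor (a : ℤ) Q - taylor (b : ℤ) Q).eval (h : ℤ) : ℤ)) *
        S.sh ((taylor (a : ℤ) P - taylor (b : ℤ) P).eval (h : ℤ)) F x) * conj (F x)) := by
  rw [← S.int_sh (-(P.eval ((h + b : ℕ) : ℤ)))]
  congr 1
  funext x
  have e1 : ∀ (R : ℤ[X]) (c : ℕ), (taylor (c : ℤ) R).eval (h : ℤ) = R.eval ((h + c : ℕ) : ℤ) := by
    intro R c; rw [taylor_eval]; push_cast; rfl
  simp only [Sys.sh, map_mul, eval_sub, e1]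
  rw [← S.τ_add, ← S.τ_add, add_neg_cancel, S.τ_zero, ← ec_neg, ← sub_eq_add_neg]
  have e2 : ec (β * ((Q.eval ((h + a : ℕ) : ℤ) - Q.eval ((h + b : ℕ) : ℤ) : ℤ) : ℝ)) =
      ec (β * (Q.eval ((h + a : ℕ) : ℤ) : ℤ)) * ec (-(β * (Q.eval ((h + b : ℕ) : ℤ) : ℤ))) := by
    rw [← ec_add]; congr 1; push_cast; ring
  rw [e2]; ring

/-- REC-4: uniform weighted Weyl lemma -/
theorem weyl (S : Sys X) (D : ℕ) (hD : 1 ≤ D) (C : ℤ) (hC : C ≠ 0) (ε : ℝ) (hε : 0 < ε) :
    ∃ ℓ : ℕ, ∀ β : ℝ, (∀ i : ℕ, 1 ≤ i → i ≤ ℓ → ∀ z : ℤ, (i : ℝ) * β ≠ z) →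
      ∃ H₀ : ℕ, ∀ H ≥ H₀, ∀ P Q : ℤ[X], P.natDegree < D → Q.natDegree = D →
        Q.leadingCoeff = C → ∀ F : X → ℂ, B1 F →
          S.sq (avg H (fun h x => ec (β * (Q.eval (h : ℤ) : ℤ)) *
            S.sh (P.eval (h : ℤ)) F x)) ≤ ε := by
  induction D, hD using Nat.le_induction generalizing C ε with
  | base =>
    refine ⟨C.natAbs, fun β hβ => ?_⟩
    have hne : ec (β * C) ≠ 1 := by
      intro h
      obtain ⟨z, hz⟩ := exists_int_of_ec_eq_one h
      have h1 := hβ C.natAbs (Int.natAbs_pos.mpr hC) le_rfl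
      rcases Int.natAbs_eq C with h2 | h2
      · apply h1 z
        rw [← hz]
        have : ((C.natAbs : ℕ) : ℝ) = (C : ℝ) := by
          rw [← Int.cast_natCast, ← h2]
        rw [this]; ring
      · apply h1 (-z)
        have : ((C.natAbs : ℕ) : ℝ) = -(C : ℝ) := by
          have h3 : ((C.natAbs : ℕ) : ℤ) = -C := by omega
          rw [← Int.cast_natCast, h3]; push_cast; ring
        rw [this]; push_cast; rw [← hz]; ring
    set M : ℝ := 2 / ‖ec (β * C) - 1‖ with hM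
    have hM0 : 0 ≤ M := by positivity
    obtain ⟨H0, hH0⟩ := exists_nat_gt (M / Real.sqrt ε)
    refine ⟨H0 + 1, fun H hH P Q hP hQ hlc F hF => ?_⟩
    have hH' : (0 : ℝ) < H := by
      have : 0 < H := by omega
      exact_mod_cast this
    have hPc : P = Polynomial.C (P.coeff 0) := eq_C_of_natDegree_le_zero (by omega)
    have hQe : ∀ h : ℤ, Q.eval h = C * h + Q.coeff 0 := by
      intro h
      have h1 : Q = Polynomial.C (Q.coeff 1) * Polynomial.X + Polynomial.C (Q.coeff 0) :=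
        eq_X_add_C_of_natDegree_le_one hQ.le
      have h2 : Q.coeff 1 = C := by rw [← hlc, leadingCoeff, hQ]
      rw [h1]; simp [h2]
    have e1 : avg H (fun h x => ec (β * (Q.eval (h : ℤ) : ℤ)) * S.sh (P.eval (h : ℤ)) F x) =
        fun x => (ec (β * (Q.coeff 0 : ℤ)) * ((H : ℂ)⁻¹ * ∑ h ∈ range H, ec (β * C * h))) *
          S.sh (P.coeff 0) F x := by
      funext x
      unfold avg
      rw [show ec (β * (Q.coeff 0 : ℤ)) * ((H : ℂ)⁻¹ * ∑ h ∈ range H, ec (β * C * h)) *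
        S.sh (P.coeff 0) F x = (H : ℂ)⁻¹ * ((∑ h ∈ range H, ec (β * C * h)) *
          (ec (β * (Q.coeff 0 : ℤ)) * S.sh (P.coeff 0) F x)) by ring]
      rw [Finset.sum_mul]
      congr 1
      refine Finset.sum_congr rfl fun h _ => ?_
      have e2 : P.eval (h : ℤ) = P.coeff 0 := by rw [hPc]; simp
      simp only [e2, hQe]
      rw [show β * ((C * (h : ℤ) + Q.coeff 0 : ℤ) : ℝ) = β * C * h + β * (Q.coeff 0 : ℤ) by
        push_cast; ring, ec_add]
      ring
    rw [e1, S.sq_cmul, norm_mul, norm_ec, one_mul, norm_mul, norm_inv, Complex.norm_natCast]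
    have h1 := norm_geom_ec (β * C) hne H
    have h2 := S.sq_le_one (hF.sh S (P.coeff 0))
    have h3 : ((H : ℝ)⁻¹ * ‖∑ h ∈ range H, ec (β * C * h)‖) ^ 2 ≤ ε := by
      have h4 : (H : ℝ)⁻¹ * ‖∑ h ∈ range H, ec (β * C * h)‖ ≤ Real.sqrt ε := by
        rw [inv_mul_le_iff₀ hH']
        refine h1.trans ?_
        have h5 : M / Real.sqrt ε < H := hH0.trans (by exact_mod_cast (by omega : H0 < H))
        rw [div_lt_iff₀ (Real.sqrt_pos.mpr hε)] at h5
        exact h5.le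
      calc ((H : ℝ)⁻¹ * ‖∑ h ∈ range H, ec (β * C * h)‖) ^ 2 ≤ Real.sqrt ε ^ 2 := by
            gcongr
        _ = ε := Real.sq_sqrt hε.le
    calc ((H : ℝ)⁻¹ * ‖∑ h ∈ range H, ec (β * C * h)‖) ^ 2 * S.sq (S.sh (P.coeff 0) F)
        ≤ ε * 1 := by
          apply mul_le_mul h3 h2 (S.sq_nonneg _) hε.le
      _ = ε := mul_one ε
  | succ D hD ih =>
    obtain ⟨K, hK⟩ := exists_nat_gt (4 / ε)
    have hK0 : 0 < (4 : ℝ) / ε := by positivity
    have hK' : (0 : ℝ) < K := hK0.trans hK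
    have hK1 : 1 ≤ K := by
      have : 0 < K := by exact_mod_cast hK'
      omega
    have hε' : 0 < (ε / 4) ^ 2 := by positivity
    have hC' : ∀ a b : ℕ, a ≠ b → ((D : ℤ) + 1) * C * ((a : ℤ) - b) ≠ 0 := by
      intro a b hab
      refine mul_ne_zero (mul_ne_zero (by positivity) hC) (sub_ne_zero.mpr ?_)
      exact_mod_cast hab
    choose! ℓ hℓ using fun (a b : ℕ) (hab : a ≠ b) =>
      ih (((D : ℤ) + 1) * C * ((a : ℤ) - b)) (hC' a b hab) ((ε / 4) ^ 2) hε'
    refine ⟨(range K ×ˢ range K).sup fun p => ℓ p.1 p.2, fun β hβ => ?_⟩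
    have hβ' : ∀ a ∈ range K, ∀ b ∈ range K, a ≠ b → ∀ i : ℕ, 1 ≤ i → i ≤ ℓ a b → ∀ z : ℤ,
        (i : ℝ) * β ≠ z := by
      intro a ha b hb _ i hi1 hi2
      refine hβ i hi1 (hi2.trans ?_)
      exact le_sup_pair ℓ ha hb
    choose! H0 hH0 using fun (a : ℕ) (ha : a ∈ range K) (b : ℕ) (hb : b ∈ range K) (hab : a ≠ b) =>
      hℓ a b hab β (hβ' a ha b hb hab)
    obtain ⟨H1, hH1⟩ := exists_nat_gt (4 * K / ε)
    refine ⟨((range K ×ˢ range K).sup fun p => H0 p.1 p.2) + K + H1, fun H hH P Q hP hQ hlc F hF => ?_⟩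
    have hH' : (0 : ℝ) < H := by
      have : 0 < H := by omega
      exact_mod_cast this
    set v : ℕ → X → ℂ := fun h x => ec (β * (Q.eval (h : ℤ) : ℤ)) * S.sh (P.eval (h : ℤ)) F x with hv
    have hvB : ∀ h, B1 (v h) := fun h => (hF.sh S _).cmul (norm_ec _).le
    have h1 := vdc S v hvB H K hK1 (by omega)
    have hpair : ∀ a ∈ range K, ∀ b ∈ range K,
        ‖(H : ℂ)⁻¹ * ∑ h ∈ range H, S.int (fun x => v (h + a) x * conj (v (h + b) x))‖
          ≤ (if a = b then 1 else 0) + ε / 4 := by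
      intro a ha b hb
      split_ifs with hab
      · have := norm_avg_le (z := fun h => S.int (fun x => v (h + a) x * conj (v (h + b) x))) H
          (fun h => S.norm_int_le ((hvB _).mul (hvB _).conj))
        linarith [div_pos hε (by norm_num : (0 : ℝ) < 4)]
      · rw [zero_add]
        set v' : ℕ → X → ℂ := fun h x =>
          ec (β * ((taylor (a : ℤ) Q - taylor (b : ℤ) Q).eval (h : ℤ) : ℤ)) *
          S.sh ((taylor (a : ℤ) P - taylor (b : ℤ) P).eval (h : ℤ)) F x with hv'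
        have hvB' : ∀ h, B1 (v' h) := fun h => (hF.sh S _).cmul (norm_ec _).le
        have e1 : ∀ h, S.int (fun x => v (h + a) x * conj (v (h + b) x)) =
            S.int (fun x => v' h x * conj (F x)) := fun h => corr_eq S β P Q F h a b
        simp_rw [e1]
        rw [← S.int_avg_mul hvB' H hF.conj]
        have h2 := S.cs_one (B1.avg hvB' H) hF.conj
        have hPd : (taylor (a : ℤ) P - taylor (b : ℤ) P).natDegree < D :=
          taylor_diff_lt P D hD (by omega) a b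
        obtain ⟨hQd, hQl⟩ := taylor_diff_lead Q D hQ a b (by exact_mod_cast hab)
        have h3 := hH0 a ha b hb hab H (by
          have := le_sup_pair H0 ha hb
          omega) _ _ hPd hQd (by rw [hQl, hlc]) F hF
        have h4 := h2.trans h3
        exact abs_le_of_sq_le_sq' h4 (by positivity) |>.2
    have hsum : ∑ a ∈ range K, ∑ b ∈ range K,
        ‖(H : ℂ)⁻¹ * ∑ h ∈ range H, S.int (fun x => v (h + a) x * conj (v (h + b) x))‖
          ≤ K + K ^ 2 * (ε / 4) := by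
      calc _ ≤ ∑ a ∈ range K, ∑ b ∈ range K, ((if a = b then 1 else 0) + ε / 4) :=
            Finset.sum_le_sum fun a ha => Finset.sum_le_sum fun b hb => hpair a ha b hb
        _ = K + K ^ 2 * (ε / 4) := by
            have : ∀ a ∈ range K, ∑ b ∈ range K, ((if a = b then (1 : ℝ) else 0) + ε / 4)
                = 1 + K * (ε / 4) := by
              intro a ha
              rw [Finset.sum_add_distrib, Finset.sum_ite_eq, if_pos ha]
              simp
            rw [Finset.sum_congr rfl this]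
            simp; ring
    have hfin : ((K : ℝ) ^ 2)⁻¹ * (K + K ^ 2 * (ε / 4)) ≤ ε / 2 := by
      have h5 : ((K : ℝ) ^ 2)⁻¹ * (K + K ^ 2 * (ε / 4)) = 1 / K + ε / 4 := by
        field_simp
      rw [h5]
      have h6 : 1 / (K : ℝ) ≤ ε / 4 := by
        rw [div_le_iff₀ hK']
        rw [div_lt_iff₀ hε] at hK
        linarith
      linarith
    have hlast : 2 * (K : ℝ) / H ≤ ε / 2 := by
      rw [div_le_iff₀ hH']
      have h7 : 4 * (K : ℝ) / ε < H := hH1.trans_le (by exact_mod_cast (by omega : H1 ≤ H))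
      rw [div_lt_iff₀ hε] at h7
      linarith
    calc S.sq (avg H v) ≤ _ := h1
      _ ≤ ((K : ℝ) ^ 2)⁻¹ * (K + K ^ 2 * (ε / 4)) + 2 * K / H := by
          gcongr
      _ ≤ ε := by linarith

end Pool.Agent.Helper50.Rec
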